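import Pool.Agent.Helper48.Lang.Goals

/-!
# MP_c7dfba_nt: packet FIN
-/

set_option autoImplicit false

namespace Pool.Agent.Helper83.Lang

open Pool.Agent.Helper48.Lang MvPolynomial

universe u v

theorem sumsq {K : Type u} [Field K] {a : K} (h : IsSumSq a) :
    ∃ (s : ℕ) (u : Fin s → K), ∑ i, u i ^ 2 = a := by
  induction h with
  | zero => exact ⟨0, fun i => i.elim0, by simp⟩
  | sq_add b _ ih =>
    obtain ⟨s, u, hu⟩ := ih
    refine ⟨s + 1, Fin.cons b u, ?_⟩
    rw [Fin.sum_univ_succ]
    simp only [Fin.cons_zero, Fin.cons_succ, hu]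
    ring

/-- The derivative as a linear map into a submodule. -/
noncomputable def Dlin {R : Type v} {K : Type u} [Field R] [Field K] [Algebra R K] {n : ℕ}
    (f : MvPolynomial (Fin n) K) (x : Fin n → K) (B W : Submodule R K)
    (h : ∀ y : Fin n → K, (∀ p, y p ∈ B) → D1 f x y ∈ W) : (Fin n → B) →ₗ[R] W where
  toFun y := ⟨D1 f x fun p => (y p : K), h _ fun p => (y p).2⟩
  map_add' y z := by
    ext
    simp only [D1, Pi.add_apply, Submodule.coe_add, mul_add, Finset.sum_add_distrib]
  map_smul' c y := by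
    ext
    simp only [D1, Pi.smul_apply, SetLike.val_smul, mul_smul_comm, ← Finset.smul_sum,
      RingHom.id_apply]

theorem c_fin (h1 : S_KP.{u, v}) (h2 : S_GRO.{u, v}) (h3 : S_CNT) (h4 : S_DEG.{u, v}) :
    S_FIN.{u, v} := by
  intro R K _ _ _ _ i htr hsq n r d f hd hf hlt
  obtain ⟨s, u₀, hu₀⟩ := sumsq hsq
  set u : Fin (s + 1) → K := Fin.cons 1 u₀ with hu
  have hu0 : u 0 = 1 := rfl
  have husum : ∑ a, u a ^ 2 = 0 := by
    rw [Fin.sum_univ_succ]
    simp only [hu, Fin.cons_zero, Fin.cons_succ, hu₀]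
    ring
  set S : Set K := insert 1 (Set.range u ∪ ⋃ j, (fun μ => coeff μ (f j)) '' ((f j).support : Set _))
    with hS
  have hSfin : S.Finite := by
    refine Set.Finite.insert _ (Set.Finite.union (Set.finite_range u) ?_)
    exact Set.finite_iUnion fun j => Set.Finite.image _ (Finset.finite_toSet _)
  set E : Submodule R K := Submodule.span R S with hE
  have hEfg : E.FG := Submodule.fg_span hSfin
  have h1E : (1 : K) ∈ E := Submodule.subset_span (Set.mem_insert _ _)
  have huE : ∀ a, u a ∈ E := fun a =>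
    Submodule.subset_span (Set.mem_insert_of_mem _ (Or.inl ⟨a, rfl⟩))
  have hcE : ∀ j μ, coeff μ (f j) ∈ E := by
    intro j μ
    by_cases hμ : μ ∈ (f j).support
    · exact Submodule.subset_span (Set.mem_insert_of_mem _ (Or.inr
        (Set.mem_iUnion.2 ⟨j, μ, hμ, rfl⟩)))
    · rw [notMem_support_iff.1 hμ]
      exact E.zero_mem
  have hfin : ∀ m, Module.Finite R (E ^ m : Submodule R K) := fun m =>
    Module.Finite.iff_fg.2 (hEfg.pow m)
  have h1m : ∀ m, (1 : K) ∈ E ^ m := fun m => by
    have := Submodule.pow_mem_pow E h1E m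
    rwa [one_pow] at this
  obtain ⟨C, hC⟩ := h2 R K i htr E (Module.Finite.iff_fg.2 hEfg)
  obtain ⟨m, hm1, hm⟩ := h3 i n r C d (fun m => Module.finrank R (E ^ m : Submodule R K)) hd hlt
    (fun m _ => by
      have := hfin m
      have : Nontrivial (E ^ m : Submodule R K) := ⟨⟨⟨1, h1m m⟩, 0, fun h =>
        one_ne_zero (congrArg Subtype.val h)⟩⟩
      exact Module.finrank_pos) hC
  refine h1 R K n r s d f hd hf (E ^ (m + 1)) (E ^ m) (hfin _) u hu0 husum ?_ ?_
  · intro a b hb
    rw [pow_succ']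
    exact Submodule.mul_mem_mul (huE a) hb
  · intro x hx
    have := hfin m
    have : ∀ j : Fin r, Module.Finite R (E ^ (d j * (m + 1)) : Submodule R K) := fun j => hfin _
    let T : (Fin n → (E ^ m : Submodule R K)) →ₗ[R]
        (∀ j : Fin r, (E ^ (d j * (m + 1)) : Submodule R K)) :=
      LinearMap.pi fun j => Dlin (f j) x (E ^ m) (E ^ (d j * (m + 1))) fun y hy =>
        h4 R K n (d j) m (f j) (hd j) (hf j) E (hcE j) x y hx hy
    have hker : LinearMap.ker T ≠ ⊥ := by
      refine LinearMap.ker_ne_bot_of_finrank_lt ?_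
      rw [Module.finrank_pi_fintype, Module.finrank_pi_fintype, Finset.sum_const, Finset.card_univ,
        Fintype.card_fin, smul_eq_mul]
      exact hm
    obtain ⟨y, hy, hy0⟩ := Submodule.exists_mem_ne_zero_of_ne_bot hker
    refine ⟨fun p => (y p : K), fun h => hy0 ?_, fun p => (y p).2, fun j => ?_⟩
    · funext p
      exact Subtype.ext (congrFun h p)
    · have := congrFun (LinearMap.mem_ker.1 hy) j
      exact congrArg Subtype.val this

end Pool.Agent.Helper83.Lang
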